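import Pool.Agent.Helper968.AD.Main

set_option autoImplicit false

/-! Oriented trees in Eulerian digraphs (in-degree = out-degree at every vertex). -/

namespace AD968

open Finset ES903

variable {V W : Type*}

/-- `t` embeds with root at `u`, other vertices in `S`; the arc between `a` and its child `b` is
directed according to `o a b` -/
def EmbO [DecidableEq V] (D : V → V → Prop) (o : W → W → Bool) : RT W → V → Finset V → Prop
  | RT.node _, _, _ => True
  | RT.graft A B, u, S =>
      comp (PlantD (Dir D (o B.root A.root)) (EmbO D o A) u) (EmbO D o B u) S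

theorem EmbO_mono [DecidableEq V] (D : V → V → Prop) (o : W → W → Bool) (t : RT W) :
    ∀ (u : V) (S T : Finset V), S ⊆ T → EmbO D o t u S → EmbO D o t u T := by
  induction t with
  | node w => intro u S T _ _; trivial
  | graft A B _ ihB =>
    intro u S T h hS
    exact RT.comp_mono (ihB u) S T h hS

theorem costO [DecidableEq V] [Fintype V] (D : V → V → Prop)
    (hbal : ∀ u, deg D true u = deg D false u) (o : W → W → Bool) (t : RT W) :
    ∑ u, ((deg D true u : ℚ) + 1) * E univ (Fail (EmbO D o t u)) ≤
      (t.size : ℚ) * ((Fintype.card V : ℚ) * ((Fintype.card V : ℚ) + 1)) := by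
  classical
  have hb : ∀ b u, deg D b u = deg D true u := by
    intro b u
    cases b
    · exact (hbal u).symm
    · rfl
  induction t with
  | node w =>
    have : ∀ u, E univ (Fail (EmbO D o (RT.node w) u)) = 0 := by
      intro u
      simp [E, Fail, EmbO]
    simp [this, RT.size]
  | graft A B ihA ihB =>
    have h1 := plantD (Dir D (o B.root A.root)) (EmbO D o A)
      (PlantD (Dir D (o B.root A.root)) (EmbO D o A))
      (EmbO_mono D o A)
      (PlantD_mono (EmbO_mono D o A)) (by
        intro u v S huv hE
        refine ⟨v, Finset.mem_insert_self _ _, huv, EmbO_mono D o A v _ _ ?_ hE⟩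
        exact Finset.erase_subset_erase _ (Finset.subset_insert _ _))
    have hd1 : ∀ u, (univ.filter (fun v => Dir D (o B.root A.root) u v)).card = deg D true u := by
      intro u
      rw [← hb (o B.root A.root) u]
      unfold deg
      congr
    have hd2 : ∀ v, (univ.filter (fun u => Dir D (o B.root A.root) u v)).card = deg D true v := by
      intro v
      rw [← hb (!o B.root A.root) v]
      unfold deg
      congr 1
      ext u
      simp [Dir_not]
    simp only [hd1, hd2] at h1
    have h2 : ∑ u, ((deg D true u : ℚ) + 1) *
          E univ (Fail (EmbO D o (RT.graft A B) u)) ≤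
        ∑ u, ((deg D true u : ℚ) + 1) *
          E univ (Fail (PlantD (Dir D (o B.root A.root)) (EmbO D o A) u)) +
        ∑ u, ((deg D true u : ℚ) + 1) * E univ (Fail (EmbO D o B u)) := by
      rw [← Finset.sum_add_distrib]
      apply Finset.sum_le_sum
      intro u _
      rw [← mul_add]
      apply mul_le_mul_of_nonneg_left _ (by positivity)
      exact glue univ _ _
    have h3 : ((RT.graft A B).size : ℚ) = A.size + B.size + 1 := by simp [RT.size]
    rw [h3]
    linarith

theorem extractO [DecidableEq V] [DecidableEq W] (D : V → V → Prop) (hD : ∀ v, ¬ D v v)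
    (o : W → W → Bool) (t : RT W)
    (ht : t.Good) (u : V) (S : Finset V) (h : EmbO D o t u S) :
    ∃ f : W → V, f t.root = u ∧ (∀ w ∈ t.verts, w ≠ t.root → f w ∈ S ∧ f w ≠ u) ∧
      Set.InjOn f t.verts ∧ (∀ a b, t.Edge a b → Dir D (o a b) (f a) (f b)) := by
  induction t generalizing u S with
  | node w =>
    refine ⟨fun _ => u, rfl, ?_, ?_, ?_⟩
    · intro x hx hne
      exact absurd (Finset.mem_singleton.mp hx) hne
    · intro x hx y hy _
      have hx' : x = w := Finset.mem_singleton.mp (by exact_mod_cast hx)
      have hy' : y = w := Finset.mem_singleton.mp (by exact_mod_cast hy)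
      rw [hx', hy']
    · intro a b hab
      exact hab.elim
  | graft A B ihA ihB =>
    obtain ⟨hgA, hgB, hdis⟩ := ht
    obtain ⟨S1, hS1, ⟨v, hv, hadj, hA⟩, hB⟩ := h
    obtain ⟨fA, hA1, hA2, hA3, hA4⟩ := ihA hgA v (S1.erase u) hA
    obtain ⟨fB, hB1, hB2, hB3, hB4⟩ := ihB hgB u (S \ S1) hB
    have hBA : ∀ w ∈ B.verts, w ∉ A.verts := fun w hw hwA =>
      (Finset.disjoint_left.mp hdis) hwA hw
    have hrA := RT.extract_root_mem A
    have hrB := RT.extract_root_mem B
    have hvu : v ≠ u := fun h => by
      rw [h] at hadj
      unfold Dir at hadj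
      split_ifs at hadj <;> exact hD u hadj
    have hfA : ∀ w ∈ A.verts, fA w ∈ S1 ∧ fA w ≠ u := by
      intro w hw
      by_cases hwr : w = A.root
      · rw [hwr, hA1]
        exact ⟨hv, hvu⟩
      · have := (hA2 w hw hwr).1
        exact ⟨Finset.mem_of_mem_erase this, Finset.ne_of_mem_erase this⟩
    have hfB : ∀ w ∈ B.verts, fB w = u ∨ fB w ∉ S1 := by
      intro w hw
      by_cases hwr : w = B.root
      · left; rw [hwr, hB1]
      · right
        exact (Finset.mem_sdiff.mp (hB2 w hw hwr).1).2
    have hcross : ∀ a ∈ A.verts, ∀ b ∈ B.verts, fA a ≠ fB b := by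
      intro a ha b hb he
      rcases hfB b hb with h1 | h1
      · exact (hfA a ha).2 (he.trans h1)
      · exact h1 (he ▸ (hfA a ha).1)
    refine ⟨fun w => if w ∈ A.verts then fA w else fB w, ?_, ?_, ?_, ?_⟩
    · show (if B.root ∈ A.verts then fA B.root else fB B.root) = u
      rw [if_neg (hBA _ hrB), hB1]
    · intro w hw hwr
      show (if w ∈ A.verts then fA w else fB w) ∈ S ∧ (if w ∈ A.verts then fA w else fB w) ≠ u
      rcases Finset.mem_union.mp hw with hw1 | hw1
      · rw [if_pos hw1]
        exact ⟨hS1 (hfA w hw1).1, (hfA w hw1).2⟩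
      · rw [if_neg (hBA w hw1)]
        have h1 := hB2 w hw1 hwr
        exact ⟨(Finset.mem_sdiff.mp h1.1).1, h1.2⟩
    · intro a ha b hb hab
      have ha' : a ∈ A.verts ∪ B.verts := by exact_mod_cast ha
      have hb' : b ∈ A.verts ∪ B.verts := by exact_mod_cast hb
      have hab' : (if a ∈ A.verts then fA a else fB a) = (if b ∈ A.verts then fA b else fB b) := hab
      rcases Finset.mem_union.mp ha' with ha1 | ha1
      · rcases Finset.mem_union.mp hb' with hb1 | hb1
        · rw [if_pos ha1, if_pos hb1] at hab'
          exact hA3 (by exact_mod_cast ha1) (by exact_mod_cast hb1) hab'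
        · rw [if_pos ha1, if_neg (hBA b hb1)] at hab'
          exact absurd hab' (hcross a ha1 b hb1)
      · rcases Finset.mem_union.mp hb' with hb1 | hb1
        · rw [if_neg (hBA a ha1), if_pos hb1] at hab'
          exact absurd hab'.symm (hcross b hb1 a ha1)
        · rw [if_neg (hBA a ha1), if_neg (hBA b hb1)] at hab'
          exact hB3 (by exact_mod_cast ha1) (by exact_mod_cast hb1) hab'
    · intro a b hab
      show Dir D (o a b) (if a ∈ A.verts then fA a else fB a) (if b ∈ A.verts then fA b else fB b)
      rcases hab with h1 | h1 | ⟨h1, h2⟩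
      · have h3 := RT.extract_edge_mem A a b h1
        rw [if_pos h3.1, if_pos h3.2]
        exact hA4 a b h1
      · have h3 := RT.extract_edge_mem B a b h1
        rw [if_neg (hBA a h3.1), if_neg (hBA b h3.2)]
        exact hB4 a b h1
      · rw [h1, h2, if_neg (hBA _ hrB), if_pos hrA, hA1, hB1]
        exact hadj

/-- a balanced digraph with more than `(k-1) n` arcs contains every oriented tree with `k` arcs -/
theorem eulerian [DecidableEq V] [Fintype V] [Fintype W] [DecidableEq W]
    (D : V → V → Prop) (hD : ∀ v, ¬ D v v)
    (hbal : ∀ u, deg D true u = deg D false u) (k : ℕ)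
    (h : (k - 1) * Fintype.card V < Nat.card {p : V × V // D p.1 p.2})
    (T : SimpleGraph W) (hT : T.IsTree) (hW : Fintype.card W = k + 1)
    (o : W → W → Bool) (ho : ∀ a b, T.Adj a b → o b a = !o a b) :
    ∃ f : W → V, Function.Injective f ∧ ∀ a b, T.Adj a b → Dir D (o a b) (f a) (f b) := by
  classical
  have := hT.connected.nonempty
  have hpos : 0 < Fintype.card W := Fintype.card_pos
  obtain ⟨t, h1, h2, h3, h4, h5⟩ := exists_RT_aux (Fintype.card W - 1) T hT (by omega)
  have hk : t.size = k := by omega
  -- number of arcs
  have harcs : ∀ b, ∑ u, deg D b u = Nat.card {p : V × V // D p.1 p.2} := by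
    intro b
    have e1 : Nat.card {p : V × V // D p.1 p.2} =
        (univ.filter (fun p : V × V => D p.1 p.2)).card := by
      rw [Nat.card_eq_fintype_card, Fintype.card_subtype]
    rw [e1]
    have e2 : (univ.filter (fun p : V × V => D p.1 p.2)).card
        = ∑ u, (univ.filter (fun v => D u v)).card := by
      rw [← Finset.univ_product_univ, Finset.card_filter, Finset.sum_product]
      apply Finset.sum_congr rfl
      intro u _
      rw [Finset.card_filter]
    have e3 : (univ.filter (fun p : V × V => D p.1 p.2)).card
        = ∑ u, (univ.filter (fun v => D v u)).card := by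
      rw [← Finset.univ_product_univ, Finset.card_filter, Finset.sum_product_right]
      apply Finset.sum_congr rfl
      intro u _
      rw [Finset.card_filter]
    cases b with
    | true =>
      rw [e2]
      apply Finset.sum_congr rfl
      intro u _
      unfold deg
      congr 1
    | false =>
      rw [e3]
      apply Finset.sum_congr rfl
      intro u _
      unfold deg
      congr 1
  obtain ⟨u, hu⟩ : ∃ u, EmbO D o t u univ := by
    by_contra hcon
    push Not at hcon
    have hall : ∀ u, E univ (Fail (EmbO D o t u)) = (Fintype.card V : ℚ) + 1 := by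
      intro u
      have : Fail (EmbO D o t u) = fun _ => 1 := by
        funext S
        have : ¬ EmbO D o t u S := fun hh => hcon u (EmbO_mono D o t u S univ (Finset.subset_univ _) hh)
        simp [Fail, this]
      rw [this, E_one, Finset.card_univ]
    have hc := costO D hbal o t
    simp only [hall] at hc
    rw [← Finset.sum_mul, Finset.sum_add_distrib] at hc
    have hdeg : ∑ u, (deg D true u : ℚ) = Nat.card {p : V × V // D p.1 p.2} := by
      exact_mod_cast harcs true
    rw [hdeg] at hc
    simp only [Finset.sum_const, nsmul_eq_mul, Finset.card_univ, mul_one] at hc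
    have hn : (0:ℚ) < (Fintype.card V : ℚ) + 1 := by positivity
    rw [← mul_assoc] at hc
    have hc2 := le_of_mul_le_mul_right hc hn
    have hc3 : Nat.card {p : V × V // D p.1 p.2} + Fintype.card V ≤ t.size * Fintype.card V := by
      exact_mod_cast hc2
    rcases Nat.eq_zero_or_pos t.size with h0 | h0
    · rw [h0] at hc3
      omega
    · obtain ⟨s, hs⟩ : ∃ s, t.size = s + 1 := ⟨t.size - 1, by omega⟩
      rw [← hk, hs] at h
      rw [hs] at hc3
      simp only [Nat.add_sub_cancel] at h
      rw [add_mul] at hc3
      omega
  obtain ⟨f, -, -, hinj, hedge⟩ := extractO D hD o t h1 u univ hu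
  rw [h2, Finset.coe_univ, Set.injOn_univ] at hinj
  refine ⟨f, hinj, fun a b hab => ?_⟩
  rcases h3 a b hab with hh | hh
  · exact hedge a b hh
  · have h6 := hedge b a hh
    rw [ho a b hab] at h6
    exact (Dir_not D _ _ _).1 h6

end AD968
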