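import Pool.Agent.Helper903.ES.Main

set_option autoImplicit false

/-! Antidirected trees in digraphs: the argument of `Pool.Agent.Helper903.ES` with out- and
in-degrees as weights. -/

namespace AD968

open Finset ES903

variable {V W : Type*}

/-- follow an arc forwards (`true`) or backwards (`false`) -/
def Dir (D : V → V → Prop) (b : Bool) (u v : V) : Prop := if b then D u v else D v u

theorem Dir_not (D : V → V → Prop) (b : Bool) (u v : V) : Dir D (!b) u v ↔ Dir D b v u := by
  cases b <;> simp [Dir]

/-- planting along a relation -/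
def PlantD [DecidableEq V] (Q : V → V → Prop) (p : V → Finset V → Prop)
    (u : V) (S : Finset V) : Prop :=
  ∃ v, v ∈ S ∧ Q u v ∧ p v (S.erase u)

/-- `t` embeds with root at `u`, other vertices in `S`, arcs directed according to `χ` -/
def EmbD [DecidableEq V] (D : V → V → Prop) (χ : W → Bool) : RT W → V → Finset V → Prop
  | RT.node _, _, _ => True
  | RT.graft A B, u, S =>
      comp (PlantD (Dir D (χ B.root)) (EmbD D χ A) u) (EmbD D χ B u) S

theorem PlantD_mono [DecidableEq V] {Q : V → V → Prop} {p : V → Finset V → Prop}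
    (hp : ∀ v S T, S ⊆ T → p v S → p v T) (u : V) (S T : Finset V) (h : S ⊆ T)
    (hc : PlantD Q p u S) : PlantD Q p u T := by
  obtain ⟨v, h1, h2, h3⟩ := hc
  exact ⟨v, h h1, h2, hp _ _ _ (Finset.erase_subset_erase _ h) h3⟩

theorem EmbD_mono [DecidableEq V] (D : V → V → Prop) (χ : W → Bool) (t : RT W) :
    ∀ (u : V) (S T : Finset V), S ⊆ T → EmbD D χ t u S → EmbD D χ t u T := by
  induction t with
  | node w => intro u S T _ _; trivial
  | graft A B _ ihB =>
    intro u S T h hS
    exact RT.comp_mono (ihB u) S T h hS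

/-- planting inequality for a relation -/
theorem plantD [DecidableEq V] [Fintype V] (Q : V → V → Prop) [DecidableRel Q]
    (p q : V → Finset V → Prop)
    (hp : ∀ v S T, S ⊆ T → p v S → p v T) (hq : ∀ v S T, S ⊆ T → q v S → q v T)
    (h : ∀ u v S, Q u v → p v (S.erase u) → q u (insert v S)) :
    ∑ u, (((univ.filter (fun v => Q u v)).card : ℚ) + 1) * E univ (Fail (q u)) ≤
      ∑ v, (((univ.filter (fun u => Q u v)).card : ℚ) + 1) * E univ (Fail (p v)) +
        (Fintype.card V : ℚ) * ((Fintype.card V : ℚ) + 1) := by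
  have harc : ∑ u, ∑ v ∈ univ.filter (fun v => Q u v), E univ (fun S => Fail (q u) (insert v S)) ≤
      ∑ v, ∑ u ∈ univ.filter (fun u => Q u v), E univ (fun S => Fail (p v) (S.erase u)) := by
    have : ∑ v, ∑ u ∈ univ.filter (fun u => Q u v), E univ (fun S => Fail (p v) (S.erase u)) =
      ∑ u, ∑ v ∈ univ.filter (fun v => Q u v), E univ (fun S => Fail (p v) (S.erase u)) := by
      apply Finset.sum_comm'
      intro x y
      simp
    rw [this]
    apply Finset.sum_le_sum
    intro u _
    apply Finset.sum_le_sum
    intro v hv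
    apply E_mono
    intro S _
    apply Fail_mono
    intro hh
    exact h u v S (by simpa using hv) hh
  have hL : ∀ u, (((univ.filter (fun v => Q u v)).card : ℚ) + 1) * E univ (Fail (q u)) -
      ((Fintype.card V : ℚ) + 1) ≤
      ∑ v ∈ univ.filter (fun v => Q u v), E univ (fun S => Fail (q u) (insert v S)) := by
    intro u
    have e1 := E_up (univ : Finset V) (Fail (q u))
    have e2 : ∑ v ∈ univ.filter (fun v => Q u v), (E univ (Fail (q u)) -
        E univ (fun S => Fail (q u) (insert v S))) ≤
        ∑ v ∈ (univ : Finset V), (E univ (Fail (q u)) -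
          E univ (fun S => Fail (q u) (insert v S))) := by
      apply Finset.sum_le_sum_of_subset_of_nonneg (Finset.subset_univ _)
      intro x _ _
      have : E univ (fun S => Fail (q u) (insert x S)) ≤ E univ (Fail (q u)) := by
        apply E_mono
        intro S _
        apply Fail_mono
        exact hq u S _ (Finset.subset_insert _ _)
      linarith
    rw [e1, Finset.sum_sub_distrib, Finset.sum_const, nsmul_eq_mul, Finset.card_univ] at e2
    have e3 := Fail_le_one (q u) ∅
    have e4 : (0:ℚ) ≤ (Fintype.card V : ℚ) + 1 := by positivity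
    nlinarith
  have hR : ∀ v, ∑ u ∈ univ.filter (fun u => Q u v), E univ (fun S => Fail (p v) (S.erase u)) ≤
      (((univ.filter (fun u => Q u v)).card : ℚ) + 1) * E univ (Fail (p v)) := by
    intro v
    have e1 := E_down (univ : Finset V) (Fail (p v))
    have e2 : ∑ u ∈ univ.filter (fun u => Q u v), (E univ (fun S => Fail (p v) (S.erase u)) -
        E univ (Fail (p v))) ≤
        ∑ u ∈ (univ : Finset V), (E univ (fun S => Fail (p v) (S.erase u)) -
        E univ (Fail (p v))) := by
      apply Finset.sum_le_sum_of_subset_of_nonneg (Finset.subset_univ _)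
      intro x _ _
      have : E univ (Fail (p v)) ≤ E univ (fun S => Fail (p v) (S.erase x)) := by
        apply E_mono
        intro S _
        apply Fail_mono
        exact hp v _ _ (Finset.erase_subset _ _)
      linarith
    rw [e1, Finset.sum_sub_distrib, Finset.sum_const, nsmul_eq_mul, Finset.card_univ] at e2
    have e3 := Fail_nonneg (p v) univ
    have e4 : (0:ℚ) ≤ (Fintype.card V : ℚ) + 1 := by positivity
    nlinarith [mul_nonneg e4 e3]
  have s1 := Finset.sum_le_sum (s := (univ : Finset V)) (fun u _ => hL u)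
  have s2 := Finset.sum_le_sum (s := (univ : Finset V)) (fun v _ => hR v)
  rw [Finset.sum_sub_distrib, Finset.sum_const, nsmul_eq_mul, Finset.card_univ] at s1
  linarith

open Classical in
/-- out-degree (`true`) or in-degree (`false`) -/
noncomputable def deg [Fintype V] (D : V → V → Prop) (b : Bool) (u : V) : ℕ :=
  (univ.filter (fun v => Dir D b u v)).card

theorem cost [DecidableEq V] [Fintype V] (D : V → V → Prop) (χ : W → Bool) (t : RT W)
    (ht : ∀ a b, t.Edge a b → χ b = !χ a) :
    ∑ u, ((deg D (χ t.root) u : ℚ) + 1) * E univ (Fail (EmbD D χ t u)) ≤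
      (t.size : ℚ) * ((Fintype.card V : ℚ) * ((Fintype.card V : ℚ) + 1)) := by
  classical
  induction t with
  | node w =>
    have : ∀ u, E univ (Fail (EmbD D χ (RT.node w) u)) = 0 := by
      intro u
      simp [E, Fail, EmbD]
    simp [this, RT.size]
  | graft A B ihA ihB =>
    have ihA' := ihA fun a b h => ht a b (Or.inl h)
    have ihB' := ihB fun a b h => ht a b (Or.inr (Or.inl h))
    have hχ : χ A.root = !χ B.root := ht _ _ (Or.inr (Or.inr ⟨rfl, rfl⟩))
    have h1 := plantD (Dir D (χ B.root)) (EmbD D χ A) (PlantD (Dir D (χ B.root)) (EmbD D χ A))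
      (EmbD_mono D χ A)
      (PlantD_mono (EmbD_mono D χ A)) (by
        intro u v S huv hE
        refine ⟨v, Finset.mem_insert_self _ _, huv, EmbD_mono D χ A v _ _ ?_ hE⟩
        exact Finset.erase_subset_erase _ (Finset.subset_insert _ _))
    have hd1 : ∀ u, (univ.filter (fun v => Dir D (χ B.root) u v)).card = deg D (χ B.root) u := by
      intro u
      unfold deg
      congr
    have hd2 : ∀ v, (univ.filter (fun u => Dir D (χ B.root) u v)).card = deg D (χ A.root) v := by
      intro v
      unfold deg
      rw [hχ]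
      congr 1
      ext u
      simp [Dir_not]
    simp only [hd1, hd2] at h1
    have h2 : ∑ u, ((deg D (χ (RT.graft A B).root) u : ℚ) + 1) *
          E univ (Fail (EmbD D χ (RT.graft A B) u)) ≤
        ∑ u, ((deg D (χ B.root) u : ℚ) + 1) *
          E univ (Fail (PlantD (Dir D (χ B.root)) (EmbD D χ A) u)) +
        ∑ u, ((deg D (χ B.root) u : ℚ) + 1) * E univ (Fail (EmbD D χ B u)) := by
      rw [← Finset.sum_add_distrib]
      apply Finset.sum_le_sum
      intro u _
      rw [← mul_add]
      apply mul_le_mul_of_nonneg_left _ (by positivity)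
      exact glue univ _ _
    have h3 : ((RT.graft A B).size : ℚ) = A.size + B.size + 1 := by simp [RT.size]
    rw [h3]
    linarith

theorem extractD [DecidableEq V] [DecidableEq W] (D : V → V → Prop) (hD : ∀ v, ¬ D v v)
    (χ : W → Bool) (t : RT W)
    (ht : t.Good) (u : V) (S : Finset V) (h : EmbD D χ t u S) :
    ∃ f : W → V, f t.root = u ∧ (∀ w ∈ t.verts, w ≠ t.root → f w ∈ S ∧ f w ≠ u) ∧
      Set.InjOn f t.verts ∧ (∀ a b, t.Edge a b → Dir D (χ a) (f a) (f b)) := by
  induction t generalizing u S with
  | node w =>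
    refine ⟨fun _ => u, rfl, ?_, ?_, ?_⟩
    · intro x hx hne
      exact absurd (Finset.mem_singleton.mp hx) hne
    · intro x hx y hy _
      have hx' : x = w := Finset.mem_singleton.mp (by exact_mod_cast hx)
      have hy' : y = w := Finset.mem_singleton.mp (by exact_mod_cast hy)
      rw [hx', hy']
    · intro a b hab
      exact hab.elim
  | graft A B ihA ihB =>
    obtain ⟨hgA, hgB, hdis⟩ := ht
    obtain ⟨S1, hS1, ⟨v, hv, hadj, hA⟩, hB⟩ := h
    obtain ⟨fA, hA1, hA2, hA3, hA4⟩ := ihA hgA v (S1.erase u) hA
    obtain ⟨fB, hB1, hB2, hB3, hB4⟩ := ihB hgB u (S \ S1) hB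
    have hBA : ∀ w ∈ B.verts, w ∉ A.verts := fun w hw hwA =>
      (Finset.disjoint_left.mp hdis) hwA hw
    have hrA := RT.extract_root_mem A
    have hrB := RT.extract_root_mem B
    have hvu : v ≠ u := fun h => by
      rw [h] at hadj
      unfold Dir at hadj
      split_ifs at hadj <;> exact hD u hadj
    have hfA : ∀ w ∈ A.verts, fA w ∈ S1 ∧ fA w ≠ u := by
      intro w hw
      by_cases hwr : w = A.root
      · rw [hwr, hA1]
        exact ⟨hv, hvu⟩
      · have := (hA2 w hw hwr).1
        exact ⟨Finset.mem_of_mem_erase this, Finset.ne_of_mem_erase this⟩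
    have hfB : ∀ w ∈ B.verts, fB w = u ∨ fB w ∉ S1 := by
      intro w hw
      by_cases hwr : w = B.root
      · left; rw [hwr, hB1]
      · right
        exact (Finset.mem_sdiff.mp (hB2 w hw hwr).1).2
    have hcross : ∀ a ∈ A.verts, ∀ b ∈ B.verts, fA a ≠ fB b := by
      intro a ha b hb he
      rcases hfB b hb with h1 | h1
      · exact (hfA a ha).2 (he.trans h1)
      · exact h1 (he ▸ (hfA a ha).1)
    refine ⟨fun w => if w ∈ A.verts then fA w else fB w, ?_, ?_, ?_, ?_⟩
    · show (if B.root ∈ A.verts then fA B.root else fB B.root) = u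
      rw [if_neg (hBA _ hrB), hB1]
    · intro w hw hwr
      show (if w ∈ A.verts then fA w else fB w) ∈ S ∧ (if w ∈ A.verts then fA w else fB w) ≠ u
      rcases Finset.mem_union.mp hw with hw1 | hw1
      · rw [if_pos hw1]
        exact ⟨hS1 (hfA w hw1).1, (hfA w hw1).2⟩
      · rw [if_neg (hBA w hw1)]
        have h1 := hB2 w hw1 hwr
        exact ⟨(Finset.mem_sdiff.mp h1.1).1, h1.2⟩
    · intro a ha b hb hab
      have ha' : a ∈ A.verts ∪ B.verts := by exact_mod_cast ha
      have hb' : b ∈ A.verts ∪ B.verts := by exact_mod_cast hb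
      have hab' : (if a ∈ A.verts then fA a else fB a) = (if b ∈ A.verts then fA b else fB b) := hab
      rcases Finset.mem_union.mp ha' with ha1 | ha1
      · rcases Finset.mem_union.mp hb' with hb1 | hb1
        · rw [if_pos ha1, if_pos hb1] at hab'
          exact hA3 (by exact_mod_cast ha1) (by exact_mod_cast hb1) hab'
        · rw [if_pos ha1, if_neg (hBA b hb1)] at hab'
          exact absurd hab' (hcross a ha1 b hb1)
      · rcases Finset.mem_union.mp hb' with hb1 | hb1
        · rw [if_neg (hBA a ha1), if_pos hb1] at hab'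
          exact absurd hab'.symm (hcross b hb1 a ha1)
        · rw [if_neg (hBA a ha1), if_neg (hBA b hb1)] at hab'
          exact hB3 (by exact_mod_cast ha1) (by exact_mod_cast hb1) hab'
    · intro a b hab
      show Dir D (χ a) (if a ∈ A.verts then fA a else fB a) (if b ∈ A.verts then fA b else fB b)
      rcases hab with h1 | h1 | ⟨h1, h2⟩
      · have h3 := RT.extract_edge_mem A a b h1
        rw [if_pos h3.1, if_pos h3.2]
        exact hA4 a b h1
      · have h3 := RT.extract_edge_mem B a b h1
        rw [if_neg (hBA a h3.1), if_neg (hBA b h3.2)]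
        exact hB4 a b h1
      · rw [h1, h2, if_neg (hBA _ hrB), if_pos hrA, hA1, hB1]
        exact hadj

/-! ### every edge of the encoding is an edge of the tree -/

theorem addLeaf_edge_inv [DecidableEq W] (p w : W) (t : RT W) (hp : p ∈ t.verts) (a b : W)
    (h : (t.addLeaf p w).Edge a b) : t.Edge a b ∨ (a = p ∧ b = w) := by
  induction t with
  | node r =>
    have hp' : p = r := by simpa [RT.verts] using hp
    rcases h with h | h | ⟨h1, h2⟩
    · exact h.elim
    · exact h.elim
    · exact Or.inr ⟨by rw [h1, hp']; rfl, h2⟩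
  | graft A B ihA ihB =>
    rw [RT.addLeaf] at h
    split_ifs at h with c1 c2
    · rcases h with h | h | ⟨h1, h2⟩
      · exact h.elim
      · exact Or.inl h
      · exact Or.inr ⟨by rw [h1, c1], h2⟩
    · rcases h with h | h | ⟨h1, h2⟩
      · rcases ihA c2 h with h | h
        · exact Or.inl (Or.inl h)
        · exact Or.inr h
      · exact Or.inl (Or.inr (Or.inl h))
      · refine Or.inl (Or.inr (Or.inr ⟨h1, ?_⟩))
        rw [h2, RT.addLeaf_root]
    · have hpB : p ∈ B.verts := by
        rcases Finset.mem_union.1 hp with h | h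
        · exact absurd h c2
        · exact h
      rcases h with h | h | ⟨h1, h2⟩
      · exact Or.inl (Or.inl h)
      · rcases ihB hpB h with h | h
        · exact Or.inl (Or.inr (Or.inl h))
        · exact Or.inr h
      · refine Or.inl (Or.inr (Or.inr ⟨?_, h2⟩))
        rw [h1, RT.addLeaf_root]

theorem rmap_edge_inv {W' : Type*} (f : W → W') (t : RT W) (a b : W')
    (h : (t.rmap f).Edge a b) : ∃ a' b', t.Edge a' b' ∧ f a' = a ∧ f b' = b := by
  induction t with
  | node w => exact h.elim
  | graft A B ihA ihB =>
    rcases h with h | h | ⟨h1, h2⟩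
    · obtain ⟨a', b', h', e1, e2⟩ := ihA h
      exact ⟨a', b', Or.inl h', e1, e2⟩
    · obtain ⟨a', b', h', e1, e2⟩ := ihB h
      exact ⟨a', b', Or.inr (Or.inl h'), e1, e2⟩
    · refine ⟨B.root, A.root, Or.inr (Or.inr ⟨rfl, rfl⟩), ?_, ?_⟩
      · rw [h1, RT.rmap_root]
      · rw [h2, RT.rmap_root]

theorem exists_RT_aux (n : ℕ) : ∀ {W : Type*} [Fintype W] [DecidableEq W] (T : SimpleGraph W)
    (_ : T.IsTree) (_ : Fintype.card W = n + 1),
    ∃ t : RT W, t.Good ∧ t.verts = Finset.univ ∧
      (∀ a b, T.Adj a b → t.Edge a b ∨ t.Edge b a) ∧ t.size + 1 = Fintype.card W ∧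
      (∀ a b, t.Edge a b → T.Adj a b) := by
  induction n with
  | zero =>
    intro W _ _ T hT hc
    obtain ⟨w, hw⟩ := Fintype.card_eq_one_iff.1 (by simpa using hc)
    refine ⟨RT.node w, trivial, ?_, ?_, ?_, ?_⟩
    · ext x; simp [RT.verts, hw x]
    · intro a b hab
      exact absurd ((hw a).trans (hw b).symm) hab.ne
    · simp [RT.size, hc]
    · intro a b h; exact h.elim
  | succ n ih =>
    intro W _ _ T hT hc
    classical
    have : Nontrivial W := Fintype.one_lt_card_iff_nontrivial.1 (by omega)
    obtain ⟨v, hv⟩ := hT.exists_vert_degree_one_of_nontrivial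
    have hconn := hT.connected.induce_compl_singleton_of_degree_eq_one hv
    have hac := hT.isAcyclic.induce ({v}ᶜ : Set W)
    obtain ⟨p, hvp, hup⟩ := SimpleGraph.degree_eq_one_iff_existsUnique_adj.mp hv
    have hcard : Fintype.card ({v}ᶜ : Set W) = n + 1 := by
      rw [Fintype.card_compl_set]
      simp [hc]
    obtain ⟨t, hg, hvt, he, hs, hinv⟩ := ih (T.induce ({v}ᶜ : Set W)) ⟨hconn, hac⟩ hcard
    have hverts : (t.rmap (Subtype.val : ({v}ᶜ : Set W) → W)).verts = Finset.univ.erase v := by
      rw [RT.rmap_verts, hvt]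
      ext x
      simp
    have hpm : p ∈ (t.rmap (Subtype.val : ({v}ᶜ : Set W) → W)).verts := by
      rw [hverts]
      simp [hvp.ne']
    refine ⟨(t.rmap (Subtype.val : ({v}ᶜ : Set W) → W)).addLeaf p v, ?_, ?_, ?_, ?_, ?_⟩
    · apply RT.addLeaf_good
      · exact RT.rmap_good _ Subtype.val_injective _ hg
      · rw [hverts]; simp
    · rw [RT.addLeaf_verts, hverts]
      ext x
      by_cases hx : x = v <;> simp [hx]
    · intro a b hab
      have hnew : ((t.rmap (Subtype.val : ({v}ᶜ : Set W) → W)).addLeaf p v).Edge p v := by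
        apply RT.addLeaf_edge_new
        exact hpm
      by_cases ha : a = v
      · subst ha
        have := hup b hab
        subst this
        exact Or.inr hnew
      · by_cases hb : b = v
        · subst hb
          have := hup a hab.symm
          subst this
          exact Or.inl hnew
        · rcases he ⟨a, ha⟩ ⟨b, hb⟩ hab with h | h
          · exact Or.inl (RT.addLeaf_edge_old _ _ _ _ _ (RT.rmap_edge Subtype.val _ _ _ h))
          · exact Or.inr (RT.addLeaf_edge_old _ _ _ _ _ (RT.rmap_edge Subtype.val _ _ _ h))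
    · rw [RT.addLeaf_size, RT.rmap_size, hs, hcard, hc]
    · intro a b h
      rcases addLeaf_edge_inv p v _ hpm a b h with h | ⟨h1, h2⟩
      · obtain ⟨a', b', h', e1, e2⟩ := rmap_edge_inv _ _ _ _ h
        have := hinv a' b' h'
        rw [← e1, ← e2]
        exact this
      · rw [h1, h2]
        exact hvp.symm

/-- main theorem: more than `(k-1) n` arcs force every antidirected tree with `k` arcs, with either
orientation -/
theorem antidirected [DecidableEq V] [Fintype V] [Fintype W] [DecidableEq W]
    (D : V → V → Prop) (hD : ∀ v, ¬ D v v) (k : ℕ)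
    (h : (k - 1) * Fintype.card V < Nat.card {p : V × V // D p.1 p.2})
    (T : SimpleGraph W) (hT : T.IsTree) (hW : Fintype.card W = k + 1)
    (χ : W → Bool) (hχ : ∀ a b, T.Adj a b → χ b = !χ a) :
    ∃ f : W → V, Function.Injective f ∧ ∀ a b, T.Adj a b → Dir D (χ a) (f a) (f b) := by
  classical
  have := hT.connected.nonempty
  have hpos : 0 < Fintype.card W := Fintype.card_pos
  obtain ⟨t, h1, h2, h3, h4, h5⟩ := exists_RT_aux (Fintype.card W - 1) T hT (by omega)
  have ht : ∀ a b, t.Edge a b → χ b = !χ a := fun a b hab => hχ a b (h5 a b hab)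
  have hk : t.size = k := by omega
  -- number of arcs
  have harcs : ∀ b, ∑ u, deg D b u = Nat.card {p : V × V // D p.1 p.2} := by
    intro b
    have e1 : Nat.card {p : V × V // D p.1 p.2} =
        (univ.filter (fun p : V × V => D p.1 p.2)).card := by
      rw [Nat.card_eq_fintype_card, Fintype.card_subtype]
    rw [e1]
    have e2 : (univ.filter (fun p : V × V => D p.1 p.2)).card
        = ∑ u, (univ.filter (fun v => D u v)).card := by
      rw [← Finset.univ_product_univ, Finset.card_filter, Finset.sum_product]
      apply Finset.sum_congr rfl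
      intro u _
      rw [Finset.card_filter]
    have e3 : (univ.filter (fun p : V × V => D p.1 p.2)).card
        = ∑ u, (univ.filter (fun v => D v u)).card := by
      rw [← Finset.univ_product_univ, Finset.card_filter, Finset.sum_product_right]
      apply Finset.sum_congr rfl
      intro u _
      rw [Finset.card_filter]
    cases b with
    | true =>
      rw [e2]
      apply Finset.sum_congr rfl
      intro u _
      unfold deg
      congr 1
    | false =>
      rw [e3]
      apply Finset.sum_congr rfl
      intro u _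
      unfold deg
      congr 1
  obtain ⟨u, hu⟩ : ∃ u, EmbD D χ t u univ := by
    by_contra hcon
    push Not at hcon
    have hall : ∀ u, E univ (Fail (EmbD D χ t u)) = (Fintype.card V : ℚ) + 1 := by
      intro u
      have : Fail (EmbD D χ t u) = fun _ => 1 := by
        funext S
        have : ¬ EmbD D χ t u S := fun hh => hcon u (EmbD_mono D χ t u S univ (Finset.subset_univ _) hh)
        simp [Fail, this]
      rw [this, E_one, Finset.card_univ]
    have hc := cost D χ t ht
    simp only [hall] at hc
    rw [← Finset.sum_mul, Finset.sum_add_distrib] at hc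
    have hdeg : ∑ u, (deg D (χ t.root) u : ℚ) = Nat.card {p : V × V // D p.1 p.2} := by
      exact_mod_cast harcs (χ t.root)
    rw [hdeg] at hc
    simp only [Finset.sum_const, nsmul_eq_mul, Finset.card_univ, mul_one] at hc
    have hn : (0:ℚ) < (Fintype.card V : ℚ) + 1 := by positivity
    rw [← mul_assoc] at hc
    have hc2 := le_of_mul_le_mul_right hc hn
    have hc3 : Nat.card {p : V × V // D p.1 p.2} + Fintype.card V ≤ t.size * Fintype.card V := by
      exact_mod_cast hc2
    rcases Nat.eq_zero_or_pos t.size with h0 | h0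
    · rw [h0] at hc3
      omega
    · obtain ⟨s, hs⟩ : ∃ s, t.size = s + 1 := ⟨t.size - 1, by omega⟩
      rw [← hk, hs] at h
      rw [hs] at hc3
      simp only [Nat.add_sub_cancel] at h
      rw [add_mul] at hc3
      omega
  obtain ⟨f, -, -, hinj, hedge⟩ := extractD D hD χ t h1 u univ hu
  rw [h2, Finset.coe_univ, Set.injOn_univ] at hinj
  refine ⟨f, hinj, fun a b hab => ?_⟩
  rcases h3 a b hab with hh | hh
  · exact hedge a b hh
  · have h6 := hedge b a hh
    rw [hχ a b hab] at h6
    exact (Dir_not D _ _ _).1 h6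

end AD968
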